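import Mathlib

/-!
# Cycle spectrum of the associahedron flip graph (MP_fb8c36_co): definitions

Binary trees with `n` inner nodes code the triangulations of the convex `(n+2)`-gon with the
vertices `0, …, n+1`.
-/

set_option autoImplicit false

namespace Pool.Agent.R651.Asc

/-- Binary trees. -/
inductive BT : Type
  | leaf : BT
  | node : BT → BT → BT
  deriving DecidableEq

/-- The number of inner nodes. -/
def BT.size : BT → ℕ
  | .leaf => 0
  | .node l r => l.size + r.size + 1

/-- One (right) rotation at any inner node. -/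
inductive Rot : BT → BT → Prop
  | root (a b c : BT) : Rot (.node (.node a b) c) (.node a (.node b c))
  | left {l l' : BT} (r : BT) : Rot l l' → Rot (.node l r) (.node l' r)
  | right (l : BT) {r r' : BT} : Rot r r' → Rot (.node l r) (.node l r')

/-- The pairs `(x, y)` (`y ≥ x + 2`) of the triangulation coded by a tree on the vertices
`i, …, i + size + 1`, the base pair `(i, i + size + 1)` included. -/
def E : ℕ → BT → Finset (ℕ × ℕ)
  | _, .leaf => ∅
  | i, .node l r => insert (i, i + l.size + r.size + 2) (E i l ∪ E (i + l.size + 1) r)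

/-- A diagonal of the convex `N`-gon with the vertices `0, …, N-1` in cyclic order: a pair
`(x, y)` with `x < y` that is not a side. -/
def IsDiagonal (N : ℕ) (d : Fin N × Fin N) : Prop :=
  (d.1 : ℕ) + 2 ≤ (d.2 : ℕ) ∧ ¬ ((d.1 : ℕ) = 0 ∧ (d.2 : ℕ) + 1 = N)

/-- Two diagonals cross (in their interiors): their end points alternate. -/
def Crosses {N : ℕ} (d e : Fin N × Fin N) : Prop :=
  (d.1 < e.1 ∧ e.1 < d.2 ∧ d.2 < e.2) ∨ (e.1 < d.1 ∧ d.1 < e.2 ∧ e.2 < d.2)

/-- A set of pairwise non-crossing diagonals. -/
def NonCrossing (N : ℕ) (T : Finset (Fin N × Fin N)) : Prop :=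
  (∀ d ∈ T, IsDiagonal N d) ∧ ∀ d ∈ T, ∀ e ∈ T, ¬ Crosses d e

/-- A triangulation: a maximal set of pairwise non-crossing diagonals. -/
def IsTriangulation (N : ℕ) (T : Finset (Fin N × Fin N)) : Prop :=
  NonCrossing N T ∧ ∀ T' : Finset (Fin N × Fin N), NonCrossing N T' → T ⊆ T' → T' = T

/-- The set `T_N` of all triangulations of the convex `N`-gon. -/
abbrev Triangulation (N : ℕ) : Type := {T : Finset (Fin N × Fin N) // IsTriangulation N T}

/-- The flip graph: two (different) triangulations are adjacent when each becomes the other by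
replacing one diagonal. -/
def flipGraph (N : ℕ) : SimpleGraph (Triangulation N) where
  Adj T T' := T ≠ T' ∧ ∃ d ∈ T.1, ∃ d' ∈ T'.1, T.1.erase d = T'.1.erase d'
  symm := ⟨by
    rintro T T' ⟨h, d, hd, d', hd', he⟩
    exact ⟨h.symm, d', hd', d, hd, he.symm⟩⟩
  loopless := ⟨fun T h => h.1 rfl⟩

/-- The cycle spectrum of a graph: the lengths of its cycles. -/
def cycleSpectrum {V : Type*} (G : SimpleGraph V) : Set ℕ :=
  {L | ∃ (v : V) (w : G.Walk v v), w.IsCycle ∧ w.length = L}

/-- **Polygon lemma** (the interface between trees and triangulations). -/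
def PolygonLemma : Prop :=
  ∀ n : ℕ, 1 ≤ n → ∃ φ : {t : BT // t.size = n} → Triangulation (n + 2),
    Function.Bijective φ ∧
      ∀ s t : {t : BT // t.size = n}, Rot s.1 t.1 → (flipGraph (n + 2)).Adj (φ s) (φ t)

end Pool.Agent.R651.Asc
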