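import Pool.Agent.R651.Asc.Zig

set_option autoImplicit false

namespace Pool.Agent.R651.Asc

/-- A closed tour through different trees with `n` inner nodes. -/
structure Cyc (n : ℕ) (C : List BT) : Prop where
  chain : C.IsChain Adj
  close : ∀ x ∈ C.getLast?, ∀ y ∈ C.head?, Adj x y
  nodup : C.Nodup
  size : ∀ t ∈ C, t.size = n

lemma Cyc.rotate {n : ℕ} {l₁ l₂ : List BT} (h : Cyc n (l₁ ++ l₂)) (h1 : l₁ ≠ []) (h2 : l₂ ≠ []) :
    Cyc n (l₂ ++ l₁) := by
  have hc := h.chain
  rw [List.isChain_append] at hc
  obtain ⟨hc1, hc2, hc3⟩ := hc
  have e1 : (l₁ ++ l₂).getLast? = l₂.getLast? := by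
    rw [List.getLast?_append]
    cases h3 : l₂.getLast? with
    | none => exact absurd (List.getLast?_eq_none_iff.mp h3) h2
    | some a => rfl
  have e2 : (l₁ ++ l₂).head? = l₁.head? := by
    cases l₁ with
    | nil => exact absurd rfl h1
    | cons a l => rfl
  have e3 : (l₂ ++ l₁).getLast? = l₁.getLast? := by
    rw [List.getLast?_append]
    cases h3 : l₁.getLast? with
    | none => exact absurd (List.getLast?_eq_none_iff.mp h3) h1
    | some a => rfl
  have e4 : (l₂ ++ l₁).head? = l₂.head? := by
    cases l₂ with
    | nil => exact absurd rfl h2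
    | cons a l => rfl
  refine ⟨?_, ?_, ?_, ?_⟩
  · rw [List.isChain_append]
    refine ⟨hc2, hc1, fun x hx y hy => h.close x (by rw [e1]; exact hx) y (by rw [e2]; exact hy)⟩
  · intro x hx y hy
    rw [e3] at hx
    rw [e4] at hy
    exact hc3 x hx y hy
  · exact (List.perm_append_comm.nodup_iff).mp h.nodup
  · intro t ht
    apply h.size
    rw [List.mem_append] at ht ⊢
    exact ht.symm

lemma sum_kk {n : ℕ} {C : List BT} (hnd : C.Nodup) (hs : ∀ t ∈ C, t.size = n)
    (hl : C.length = (trees n).card) : (C.map kk).sum = (trees (n + 1)).card := by
  have h1 : C.toFinset = trees n := by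
    apply Finset.eq_of_subset_of_card_le
    · intro t ht
      rw [List.mem_toFinset] at ht
      exact mem_trees.mpr (hs t ht)
    · rw [List.toFinset_card_of_nodup hnd, hl]
  rw [card_trees_succ, ← h1, List.sum_toFinset kk hnd]

/-- The Hamilton cycles of the induction: there are four consecutive trees with
2, 2, 3, 3 sons. -/
def Ham (n : ℕ) : Prop :=
  ∃ (a b c d : BT) (rest : List BT), Cyc n (a :: b :: c :: d :: rest) ∧
    (a :: b :: c :: d :: rest).length = (trees n).card ∧ kk a = 2 ∧ kk b = 2 ∧ kk c = 3 ∧ kk d = 3

lemma nodup_append_of_father {W₁ W₂ D₁ D₂ : List BT} (h1 : W₁.Nodup) (h2 : W₂.Nodup)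
    (f1 : ∀ w ∈ W₁, father w ∈ D₁) (f2 : ∀ w ∈ W₂, father w ∈ D₂) (h : ∀ t ∈ D₁, t ∉ D₂) :
    (W₁ ++ W₂).Nodup := by
  rw [List.nodup_append]
  refine ⟨h1, h2, ?_⟩
  intro a ha b hb hab
  subst hab
  exact h _ (f1 a ha) (f2 a hb)

lemma Trail.father_mem {D : List BT} {x y : BT} {W : List BT} (h : Trail D x y W) :
    ∀ w ∈ W, father w ∈ D := by
  intro w hw
  obtain ⟨t, ht, hwt⟩ := h.mem w hw
  rw [father_of_mem hwt]
  exact ht

lemma Trail.size_eq {D : List BT} {x y : BT} {W : List BT} (h : Trail D x y W) {n : ℕ}
    (hD : ∀ t ∈ D, t.size = n) : ∀ w ∈ W, w.size = n + 1 := by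
  intro w hw
  obtain ⟨t, ht, hwt⟩ := h.mem w hw
  rw [size_of_mem hwt, hD t ht]

lemma rson_adj_lson {a : BT} (h : kk a = 2) : Adj (lson a) (rson a) := by
  have := chain_sons a
  rw [sons_of_kk_two h, List.isChain_cons_cons] at this
  exact this.1

lemma father_rson (t : BT) : father (rson t) = t := father_of_mem (rson_mem t)

lemma size_lson (t : BT) : (lson t).size = t.size + 1 := size_of_mem (lson_mem t)

lemma size_rson (t : BT) : (rson t).size = t.size + 1 := size_of_mem (rson_mem t)

/-- The even step. -/
lemma ham_even {n : ℕ} {a b c d : BT} {rest : List BT} (h : Cyc n (a :: b :: c :: d :: rest))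
    (hl : (a :: b :: c :: d :: rest).length = (trees n).card) (ha : kk a = 2) (hb : kk b = 2)
    (hc : kk c = 3) (hd : kk d = 3) (hev : Even (a :: b :: c :: d :: rest).length) :
    Ham (n + 1) := by
  have hsum := sum_kk h.nodup h.size hl
  have hev' : Even rest.length := by
    simp only [List.length_cons] at hev
    rw [Nat.even_add_one, Nat.even_add_one, not_not, Nat.even_add_one, Nat.even_add_one,
      not_not] at hev
    exact hev
  have hfl : flat ((c, d) :: pairs rest) = c :: d :: rest := by
    rw [flat_cons, flat_pairs rest hev']
  have hch := h.chain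
  rw [List.isChain_cons_cons, List.isChain_cons_cons] at hch
  have hnd := h.nodup
  rw [List.nodup_cons, List.nodup_cons] at hnd
  obtain ⟨hna, hnb, hndD⟩ := hnd
  have hab : a ≠ b := by
    rintro rfl; exact hna (by simp)
  have hchD : (flat ((c, d) :: pairs rest)).IsChain Adj := by rw [hfl]; exact hch.2.2
  have hsizeD : ∀ t ∈ c :: d :: rest, t.size = n := fun t ht =>
    h.size t (List.mem_cons_of_mem _ (List.mem_cons_of_mem _ ht))
  have htop := top_mem_TS ((c, d) :: pairs rest) (adj_of_mem_pairs _ hchD)
  obtain ⟨W, y, hy, hW, hWl⟩ := exists_trail (c, d) (pairs rest) hchD (by rw [hfl]; exact hndD) htop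
  rw [hfl] at hy hW hWl
  have hlast : Adj y a := by
    apply h.close y _ a (by simp)
    rw [List.getLast?_cons_cons, List.getLast?_cons_cons]
    exact hy
  have hWf := hW.father_mem
  have hWs := hW.size_eq hsizeD
  obtain ⟨hWc, hWh, hWla, hWn, _⟩ := hW
  cases W with
  | nil => simp at hWh
  | cons w W =>
    simp only [List.head?_cons, Option.some.injEq] at hWh
    subst hWh
    have hWne : W ≠ [] := by
      rintro rfl
      simp only [List.length_cons, List.length_nil, List.map_cons, List.sum_cons, hc, hd] at hWl
      omega
    rw [List.nodup_cons] at hWn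
    have hlastW : W.getLast? = some (lson y) := by
      rw [List.getLast?_cons] at hWla
      cases h3 : W.getLast? with
      | none => exact absurd (List.getLast?_eq_none_iff.mp h3) hWne
      | some z => rw [h3] at hWla; simpa using hWla
    have hWfc : ∀ w ∈ W.reverse, father w ∈ c :: d :: rest := fun w hw =>
      hWf w (by rw [List.mem_reverse] at hw; simp [hw])
    refine ⟨lson c, lson b, rson b, rson a, lson a :: W.reverse, ⟨?_, ?_, ?_, ?_⟩, ?_, rfl, rfl,
      by rw [kk_rson, hb], by rw [kk_rson, ha]⟩
    · rw [List.isChain_cons_cons, List.isChain_cons_cons, List.isChain_cons_cons,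
        List.isChain_cons_cons, List.isChain_cons]
      refine ⟨hch.2.1.symm.lson, rson_adj_lson hb, hch.1.symm.rson, (rson_adj_lson ha).symm, ?_, ?_⟩
      · intro z hz
        rw [List.head?_reverse, hlastW] at hz
        simp only [Option.mem_def, Option.some.injEq] at hz
        subst hz
        exact hlast.symm.lson
      · rw [List.isChain_reverse]
        exact hWc.tail.imp (fun _ _ h => h.symm)
    · intro x hx z hz
      simp only [List.head?_cons, Option.mem_def, Option.some.injEq] at hz
      subst hz
      rw [List.getLast?_cons_cons, List.getLast?_cons_cons, List.getLast?_cons_cons,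
        List.getLast?_cons_cons, List.getLast?_cons, List.getLast?_reverse] at hx
      cases W with
      | nil => exact absurd rfl hWne
      | cons v W =>
        simp at hx
        subst hx
        rw [List.isChain_cons_cons] at hWc
        exact hWc.1.symm
    · have h1 : [lson c].Nodup := by simp
      have e : lson c :: lson b :: rson b :: rson a :: lson a :: W.reverse =
          [lson c] ++ ([lson b, rson b] ++ ([rson a, lson a] ++ W.reverse)) := rfl
      have n1 : ([rson a, lson a] ++ W.reverse).Nodup := by
        refine nodup_append_of_father (D₁ := [a]) (D₂ := c :: d :: rest) ?_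
          (List.nodup_reverse.mpr hWn.2) ?_ hWfc ?_
        · have := nodup_sons a
          rw [sons_of_kk_two ha] at this
          simp only [List.nodup_cons, List.mem_cons, List.not_mem_nil, or_false, not_false_iff,
            true_and, List.nodup_nil, and_true] at this ⊢
          exact fun h => this h.symm
        · intro w hw
          simp only [List.mem_cons, List.not_mem_nil, or_false] at hw
          rcases hw with rfl | rfl
          · simp [father_rson]
          · simp [father_lson]
        · intro t ht
          simp only [List.mem_cons, List.not_mem_nil, or_false] at ht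
          subst ht
          intro h5; exact hna (List.mem_cons_of_mem _ h5)
      have f1 : ∀ w ∈ [rson a, lson a] ++ W.reverse, father w ∈ a :: c :: d :: rest := by
        intro w hw
        rw [List.mem_append] at hw
        rcases hw with hw | hw
        · simp only [List.mem_cons, List.not_mem_nil, or_false] at hw
          rcases hw with rfl | rfl
          · simp [father_rson]
          · simp [father_lson]
        · exact List.mem_cons_of_mem _ (hWfc w hw)
      have n2 : ([lson b, rson b] ++ ([rson a, lson a] ++ W.reverse)).Nodup := by
        refine nodup_append_of_father (D₁ := [b]) (D₂ := a :: c :: d :: rest) ?_ n1 ?_ f1 ?_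
        · have := nodup_sons b
          rwa [sons_of_kk_two hb] at this
        · intro w hw
          simp only [List.mem_cons, List.not_mem_nil, or_false] at hw
          rcases hw with rfl | rfl
          · simp [father_lson]
          · simp [father_rson]
        · intro t ht
          simp only [List.mem_cons, List.not_mem_nil, or_false] at ht
          subst ht
          rw [List.mem_cons, not_or]
          exact ⟨hab.symm, hnb⟩
      rw [e, List.singleton_append, List.nodup_cons]
      refine ⟨?_, n2⟩
      rw [List.mem_append, List.mem_append, not_or, not_or]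
      have hcb : c ≠ b := by rintro rfl; exact hnb (by simp)
      have hca : c ≠ a := by rintro rfl; exact hna (by simp)
      refine ⟨?_, ?_, ?_⟩
      · intro h5
        simp only [List.mem_cons, List.not_mem_nil, or_false] at h5
        rcases h5 with h5 | h5
        · exact hcb (by simpa [father_lson] using congrArg father h5)
        · exact hcb (by simpa [father_lson, father_rson] using congrArg father h5)
      · intro h5
        simp only [List.mem_cons, List.not_mem_nil, or_false] at h5
        rcases h5 with h5 | h5
        · exact hca (by simpa [father_lson, father_rson] using congrArg father h5)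
        · exact hca (by simpa [father_lson] using congrArg father h5)
      · rw [List.mem_reverse]; exact hWn.1
    · intro t ht
      simp only [List.mem_cons] at ht
      rcases ht with rfl | rfl | rfl | rfl | rfl | ht
      · rw [size_lson, h.size c (by simp)]
      · rw [size_lson, h.size b (by simp)]
      · rw [size_rson, h.size b (by simp)]
      · rw [size_rson, h.size a (by simp)]
      · rw [size_lson, h.size a (by simp)]
      · rw [List.mem_reverse] at ht
        exact hWs t (List.mem_cons_of_mem _ ht)
    · rw [← hsum]
      simp only [List.length_cons, List.map_cons, List.sum_cons, List.length_reverse, ha, hb] at hWl ⊢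
      omega

/-- The odd step. -/
lemma ham_odd {n : ℕ} {a b c d : BT} {rest : List BT} (h : Cyc n (a :: b :: c :: d :: rest))
    (hl : (a :: b :: c :: d :: rest).length = (trees n).card)
    (hc : kk c = 3) (hd : kk d = 3) (hodd : ¬ Even (a :: b :: c :: d :: rest).length) :
    Ham (n + 1) := by
  have hodd' : ¬ Even rest.length := by
    simp only [List.length_cons] at hodd
    rw [Nat.even_add_one, Nat.even_add_one, not_not, Nat.even_add_one, Nat.even_add_one,
      not_not] at hodd
    exact hodd
  cases rest with
  | nil => simp at hodd'
  | cons e rest =>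
  have hev : Even rest.length := by
    simp only [List.length_cons] at hodd'
    rw [Nat.even_add_one, not_not] at hodd'
    exact hodd'
  have hrot : Cyc n (c :: d :: e :: (rest ++ [a, b])) := by
    have h1 : Cyc n ([a, b] ++ (c :: d :: e :: rest)) := h
    exact h1.rotate (by simp) (by simp)
  have hl' : (c :: d :: e :: (rest ++ [a, b])).length = (trees n).card := by
    rw [← hl]; simp
  have hsum := sum_kk hrot.nodup hrot.size hl'
  obtain ⟨f, R, hfR⟩ : ∃ f R, rest ++ [a, b] = f :: R := by
    cases rest with
    | nil => exact ⟨a, [b], rfl⟩
    | cons x l => exact ⟨x, l ++ [a, b], rfl⟩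
  have hlen : (f :: R).length = rest.length + 2 := by rw [← hfR]; simp
  have hlast0 : (f :: R).getLast? = some b := by rw [← hfR]; simp
  obtain ⟨g, R', hgR⟩ : ∃ g R', R = g :: R' := by
    cases R with
    | nil => simp only [List.length_cons, List.length_nil] at hlen; omega
    | cons x l => exact ⟨x, l, rfl⟩
  have hev' : Even R'.length := by
    have : R'.length = rest.length := by
      rw [hgR] at hlen; simp only [List.length_cons] at hlen; omega
    rw [this]; exact hev
  rw [hfR] at hrot hsum
  have hfl : flat ((f, g) :: pairs R') = f :: R := by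
    rw [flat_cons, flat_pairs R' hev', hgR]
  have hch := hrot.chain
  rw [List.isChain_cons_cons, List.isChain_cons_cons, List.isChain_cons_cons] at hch
  obtain ⟨hcd, hde, hef, hchR⟩ := hch
  have hnd := hrot.nodup
  rw [List.nodup_cons, List.nodup_cons, List.nodup_cons] at hnd
  obtain ⟨hnc, hndd, hne, hndR⟩ := hnd
  have hchD : (flat ((f, g) :: pairs R')).IsChain Adj := by rw [hfl]; exact hchR
  have htop := top_mem_TS ((f, g) :: pairs R') (adj_of_mem_pairs _ hchD)
  obtain ⟨W, y, hy, hW, hWl⟩ := exists_trail (f, g) (pairs R') hchD (by rw [hfl]; exact hndR) htop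
  rw [hfl] at hy hW hWl
  rw [hlast0, Option.some.injEq] at hy
  subst hy
  have hbc : Adj b c := by
    apply hrot.close b _ c (by simp)
    rw [List.getLast?_cons_cons, List.getLast?_cons_cons, List.getLast?_cons_cons]
    exact hlast0
  have hWf := hW.father_mem
  have hWs := hW.size_eq (n := n) (fun t ht => hrot.size t (by
    exact List.mem_cons_of_mem _ (List.mem_cons_of_mem _ (List.mem_cons_of_mem _ ht))))
  obtain ⟨mc, hmc, hkmc⟩ := sons_of_kk_three hc
  obtain ⟨md, hmd, hkmd⟩ := sons_of_kk_three hd
  have hmcd : Adj mc md := by
    have key : ∀ {x y m m' : BT}, Lad (sons x) (sons y) → sons x = [lson x, m, rson x] →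
        sons y = [lson y, m', rson y] → Adj m m' := by
      intro x y m m' h hx hy
      rcases h with h | ⟨A, x0, B, A', B', h1, h2, hA, hB, h3, h4⟩
      · rw [hx, hy] at h
        simp only [List.forall₂_cons] at h
        exact h.2.1
      · exfalso
        have e1 := congrArg List.length h1
        have e2 := congrArg List.length h2
        have e3 := h3.length_eq
        have e4 := h4.length_eq
        rw [hx] at e1
        rw [hy] at e2
        simp only [List.length_cons, List.length_nil, List.length_append] at e1 e2
        omega
    rcases lad_of_adj hcd with h1 | h1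
    · exact key h1 hmc hmd
    · exact (key h1 hmd hmc).symm
  have hchc := chain_sons c
  rw [hmc, List.isChain_cons_cons, List.isChain_cons_cons] at hchc
  have hchd := chain_sons d
  rw [hmd, List.isChain_cons_cons, List.isChain_cons_cons] at hchd
  have hfe : ∀ w ∈ (sons e).reverse, father w ∈ [e] := by
    intro w hw
    rw [List.mem_reverse] at hw
    simp [father_of_mem hw]
  -- the part after the first six trees
  have hZh : ((sons e).reverse ++ W).head? = some (rson e) := by
    rw [List.head?_append, List.head?_reverse, getLast?_sons]; rfl
  have hZl : ((sons e).reverse ++ W).getLast? = some (lson b) := by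
    rw [List.getLast?_append, hW.last]; rfl
  have hZc : ((sons e).reverse ++ W).IsChain Adj := by
    refine List.IsChain.append ?_ hW.chain ?_
    · rw [List.isChain_reverse]
      exact (chain_sons e).imp (fun _ _ h => h.symm)
    · intro x hx z hz
      rw [List.getLast?_reverse, head?_sons] at hx
      rw [hW.head] at hz
      simp only [Option.mem_def, Option.some.injEq] at hx hz
      subst hx hz
      exact hef.lson
  have hZn : ((sons e).reverse ++ W).Nodup :=
    nodup_append_of_father (List.nodup_reverse.mpr (nodup_sons e)) hW.nodup hfe hWf (by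
      intro t ht
      simp only [List.mem_cons, List.not_mem_nil, or_false] at ht
      subst ht
      exact hne)
  have hZf : ∀ w ∈ (sons e).reverse ++ W, father w ∈ e :: f :: R := by
    intro w hw
    rw [List.mem_append] at hw
    rcases hw with hw | hw
    · have := hfe w hw
      simp only [List.mem_cons, List.not_mem_nil, or_false] at this
      simp [this]
    · exact List.mem_cons_of_mem _ (hWf w hw)
  have hZs : ∀ w ∈ (sons e).reverse ++ W, w.size = n + 1 := by
    intro w hw
    rw [List.mem_append] at hw
    rcases hw with hw | hw
    · rw [List.mem_reverse] at hw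
      rw [size_of_mem hw, hrot.size e (by simp)]
    · exact hWs w hw
  have hZlen : ((sons e).reverse ++ W).length = kk e + ((f :: R).map kk).sum := by
    rw [List.length_append, List.length_reverse, length_sons, hWl]
  generalize (sons e).reverse ++ W = Z at hZh hZl hZc hZn hZf hZs hZlen
  refine ⟨lson c, lson d, md, mc, rson c :: rson d :: Z, ⟨?_, ?_, ?_, ?_⟩, ?_, rfl, rfl,
    hkmd, hkmc⟩
  · rw [List.isChain_cons_cons, List.isChain_cons_cons, List.isChain_cons_cons,
      List.isChain_cons_cons, List.isChain_cons_cons, List.isChain_cons]
    refine ⟨hcd.lson, hchd.1, hmcd.symm, hchc.2.1, hcd.rson, ?_, hZc⟩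
    intro z hz
    rw [hZh] at hz
    simp only [Option.mem_def, Option.some.injEq] at hz
    subst hz
    exact hde.rson
  · intro x hx z hz
    simp only [List.head?_cons, Option.mem_def, Option.some.injEq] at hz
    subst hz
    rw [List.getLast?_cons_cons, List.getLast?_cons_cons, List.getLast?_cons_cons,
      List.getLast?_cons_cons, List.getLast?_cons_cons, List.getLast?_cons, hZl] at hx
    simp at hx
    subst hx
    exact hbc.lson
  · have hp : (lson c :: lson d :: md :: mc :: rson c :: rson d :: Z).Perm
        (sons c ++ (sons d ++ Z)) := by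
      rw [hmc, hmd]
      simp only [List.cons_append, List.nil_append]
      refine List.Perm.cons _ ?_
      -- lson d :: md :: mc :: rson c :: rson d :: Z ~ mc :: rson c :: lson d :: md :: rson d :: Z
      have h1 : (lson d :: md :: mc :: rson c :: rson d :: Z).Perm
          (lson d :: mc :: md :: rson c :: rson d :: Z) := (List.Perm.swap _ _ _).cons _
      have h2 : (lson d :: mc :: md :: rson c :: rson d :: Z).Perm
          (mc :: lson d :: md :: rson c :: rson d :: Z) := List.Perm.swap _ _ _
      have h3 : (mc :: lson d :: md :: rson c :: rson d :: Z).Perm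
          (mc :: lson d :: rson c :: md :: rson d :: Z) := ((List.Perm.swap _ _ _).cons _).cons _
      have h4 : (mc :: lson d :: rson c :: md :: rson d :: Z).Perm
          (mc :: rson c :: lson d :: md :: rson d :: Z) := (List.Perm.swap _ _ _).cons _
      exact ((h1.trans h2).trans h3).trans h4
    rw [hp.nodup_iff]
    have fd : ∀ w ∈ sons d ++ Z, father w ∈ d :: e :: f :: R := by
      intro w hw
      rw [List.mem_append] at hw
      rcases hw with hw | hw
      · simp [father_of_mem hw]
      · exact List.mem_cons_of_mem _ (hZf w hw)
    refine nodup_append_of_father (D₁ := [c]) (D₂ := d :: e :: f :: R) (nodup_sons c) ?_ ?_ fd ?_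
    · refine nodup_append_of_father (D₁ := [d]) (D₂ := e :: f :: R) (nodup_sons d) hZn ?_ hZf ?_
      · intro w hw
        simp [father_of_mem hw]
      · intro t ht
        simp only [List.mem_cons, List.not_mem_nil, or_false] at ht
        subst ht
        exact hndd
    · intro w hw
      simp [father_of_mem hw]
    · intro t ht
      simp only [List.mem_cons, List.not_mem_nil, or_false] at ht
      subst ht
      exact hnc
  · have hmc' : mc ∈ sons c := by rw [hmc]; simp
    have hmd' : md ∈ sons d := by rw [hmd]; simp
    intro t ht
    simp only [List.mem_cons] at ht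
    rcases ht with rfl | rfl | rfl | rfl | rfl | rfl | ht
    · rw [size_lson, hrot.size c (by simp)]
    · rw [size_lson, hrot.size d (by simp)]
    · rw [size_of_mem hmd', hrot.size d (by simp)]
    · rw [size_of_mem hmc', hrot.size c (by simp)]
    · rw [size_rson, hrot.size c (by simp)]
    · rw [size_rson, hrot.size d (by simp)]
    · exact hZs t ht
  · rw [← hsum]
    simp only [List.length_cons, List.map_cons, List.sum_cons, hc, hd] at hZlen ⊢
    omega

lemma ham_step {n : ℕ} (h : Ham n) : Ham (n + 1) := by
  obtain ⟨a, b, c, d, rest, h, hl, ha, hb, hc, hd⟩ := h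
  by_cases hev : Even (a :: b :: c :: d :: rest).length
  · exact ham_even h hl ha hb hc hd hev
  · exact ham_odd h hl hc hd hev

/-! ### The base case -/

/-- A decision procedure for rotations. -/
def rotB : BT → BT → Bool
  | .node l r, .node l' r' =>
    (match l, r' with
      | .node a b, .node b' c => decide (a = l') && decide (b = b') && decide (r = c)
      | _, _ => false) || (decide (l = l') && rotB r r') || (decide (r = r') && rotB l l')
  | _, _ => false

lemma rotB_sound {s t : BT} (h : rotB s t = true) : Rot s t := by
  induction s generalizing t with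
  | leaf => cases t <;> simp [rotB] at h
  | node l r ihl ihr =>
    cases t with
    | leaf => simp [rotB] at h
    | node l' r' =>
      unfold rotB at h
      simp only [Bool.or_eq_true, Bool.and_eq_true, decide_eq_true_eq] at h
      rcases h with (h | ⟨rfl, h⟩) | ⟨rfl, h⟩
      · cases l with
        | leaf => simp at h
        | node a b =>
          cases r' with
          | leaf => simp at h
          | node b' c =>
            simp only [Bool.and_eq_true, decide_eq_true_eq] at h
            obtain ⟨⟨rfl, rfl⟩, rfl⟩ := h
            exact .root _ _ _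
      · exact .right _ (ihr h)
      · exact .left _ (ihl h)

/-- A decision procedure for chains. -/
def chainB : List BT → Bool
  | x :: y :: l => (rotB x y || rotB y x) && chainB (y :: l)
  | _ => true

theorem chainB_sound : ∀ L : List BT, chainB L = true → L.IsChain Adj
  | [], _ => by simp
  | [x], _ => by simp
  | x :: y :: l, h => by
    rw [chainB, Bool.and_eq_true, Bool.or_eq_true] at h
    rw [List.isChain_cons_cons]
    refine ⟨?_, chainB_sound (y :: l) h.2⟩
    rcases h.1 with h1 | h1
    · exact Or.inl (rotB_sound h1)
    · exact Or.inr (rotB_sound h1)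

/-- The Hamilton cycle for `n = 4`. -/
def base4 : List BT :=
  [.node .leaf (.node .leaf (.node .leaf (.node .leaf .leaf))),
  .node .leaf (.node .leaf (.node (.node .leaf .leaf) .leaf)),
  .node (.node .leaf .leaf) (.node (.node .leaf .leaf) .leaf),
  .node (.node .leaf .leaf) (.node .leaf (.node .leaf .leaf)),
  .node (.node (.node .leaf .leaf) .leaf) (.node .leaf .leaf),
  .node (.node (.node (.node .leaf .leaf) .leaf) .leaf) .leaf,
  .node (.node (.node .leaf .leaf) (.node .leaf .leaf)) .leaf,
  .node (.node .leaf (.node .leaf (.node .leaf .leaf))) .leaf,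
  .node .leaf (.node (.node .leaf (.node .leaf .leaf)) .leaf),
  .node .leaf (.node (.node (.node .leaf .leaf) .leaf) .leaf),
  .node (.node .leaf (.node (.node .leaf .leaf) .leaf)) .leaf,
  .node (.node (.node .leaf (.node .leaf .leaf)) .leaf) .leaf,
  .node (.node .leaf (.node .leaf .leaf)) (.node .leaf .leaf),
  .node .leaf (.node (.node .leaf .leaf) (.node .leaf .leaf))]

lemma ham_four : Ham 4 := by
  refine ⟨_, _, _, _, _, (⟨chainB_sound base4 (by decide), ?_, by decide, by decide⟩ :
    Cyc 4 base4), ?_, rfl, rfl, rfl, rfl⟩
  · intro x hx y hy
    simp only [base4, List.getLast?_cons_cons, List.getLast?_singleton, List.head?_cons,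
      Option.mem_def, Option.some.injEq] at hx hy
    subst hx hy
    exact Or.inl (rotB_sound (by decide))
  · decide +kernel

lemma ham (n : ℕ) (hn : 4 ≤ n) : Ham n := by
  induction n, hn using Nat.le_induction with
  | base => exact ham_four
  | succ n _ ih => exact ham_step ih

end Pool.Agent.R651.Asc
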