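import Pool.Agent.R651.Asc.Ham

set_option autoImplicit false

open scoped Topology
open Filter

namespace Pool.Agent.R651.Asc

/-- The lengths of the closed tours. -/
def LS (n : ℕ) : Set ℕ := {L | 3 ≤ L ∧ ∃ C, Cyc n C ∧ C.length = L}

lemma LS_succ {n L : ℕ} (h : L ∈ LS n) : L ∈ LS (n + 1) := by
  obtain ⟨h3, C, hC, rfl⟩ := h
  refine ⟨h3, C.map lson, ⟨?_, ?_, ?_, ?_⟩, by simp⟩
  · rw [List.isChain_map]
    exact hC.chain.imp (fun _ _ h => h.lson)
  · intro x hx y hy
    rw [List.getLast?_map] at hx
    rw [List.head?_map] at hy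
    simp only [Option.mem_def, Option.map_eq_some_iff] at hx hy
    obtain ⟨x', hx', rfl⟩ := hx
    obtain ⟨y', hy', rfl⟩ := hy
    exact (hC.close x' hx' y' hy').lson
  · refine hC.nodup.map ?_
    intro a b h
    simpa [lson] using h
  · intro t ht
    rw [List.mem_map] at ht
    obtain ⟨s, hs, rfl⟩ := ht
    rw [size_lson, hC.size s hs]

lemma LS_le {n L : ℕ} (h : L ∈ LS n) : L ≤ (trees n).card := by
  obtain ⟨_, C, hC, rfl⟩ := h
  rw [← List.toFinset_card_of_nodup hC.nodup]
  apply Finset.card_le_card
  intro t ht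
  rw [List.mem_toFinset] at ht
  exact mem_trees.mpr (hC.size t ht)

lemma interval_trail {n : ℕ} (hn : 4 ≤ n) {c d : BT} {D : List BT}
    (hch : (c :: d :: D).IsChain Adj) (hnd : (c :: d :: D).Nodup)
    (hsz : ∀ t ∈ c :: d :: D, t.size = n) (hev : Even D.length) (hc : kk c = 3) (hd : kk d = 3)
    (hcomb : comb n ∈ c :: d :: D) {L : ℕ} (h1 : (c :: d :: D).length + 2 * n ≤ L)
    (h2 : L + 2 * n ≤ ((c :: d :: D).map kk).sum) :
    ∃ W y, (c :: d :: D).getLast? = some y ∧ Trail (c :: d :: D) c y W ∧ W.length = L := by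
  have hfl : flat ((c, d) :: pairs D) = c :: d :: D := by
    rw [flat_cons, flat_pairs D hev]
  have hkc : kk (comb n) = n + 1 := kk_comb n
  have hD : comb n ∈ flat (pairs D) := by
    rw [flat_pairs D hev]
    simp only [List.mem_cons] at hcomb
    rcases hcomb with h | h | h
    · rw [h] at hkc; omega
    · rw [h] at hkc; omega
    · exact h
  have hps := adj_of_mem_pairs ((c, d) :: pairs D) (by rw [hfl]; exact hch)
  obtain ⟨p, hp, hpc⟩ := mem_flat hD
  have hp1 : p.1 ∈ c :: d :: D := by
    rw [← hfl]; simp only [flat_cons, List.mem_cons]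
    right; right
    simp only [flat, List.mem_flatMap]
    exact ⟨p, hp, by simp⟩
  have hp2 : p.2 ∈ c :: d :: D := by
    rw [← hfl]; simp only [flat_cons, List.mem_cons]
    right; right
    simp only [flat, List.mem_flatMap]
    exact ⟨p, hp, by simp⟩
  have hs1 := hsz _ hp1
  have hs2 := hsz _ hp2
  have hk1 := kk_le p.1
  have hk2 := kk_le p.2
  have hadj : Adj p.1 p.2 := hps p (by simp [hp])
  have hk : kk p.1 ≠ kk p.2 := by
    intro h
    apply hadj.ne
    rcases hpc with h' | h'
    · rw [h'] at hkc
      have e : kk p.2 = p.2.size + 1 := by rw [← h, hkc, hs2]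
      rw [eq_comb e, hs2, h']
    · rw [h'] at hkc
      have e : kk p.1 = p.1.size + 1 := by rw [h, hkc, hs1]
      rw [eq_comb e, hs1, h']
  have hL : L ∈ TS ((c, d) :: pairs D) := by
    refine interval_mem (n := n) hc hd hps hp hk (by omega) (by omega) ?_ ?_
    · rw [hfl]; exact h1
    · rw [hfl]; exact h2
  obtain ⟨W, y, hy, hW, hl⟩ := exists_trail (c, d) (pairs D) (by rw [hfl]; exact hch)
    (by rw [hfl]; exact hnd) hL
  rw [hfl] at hy hW
  exact ⟨W, y, hy, hW, hl⟩

lemma LS_interval {n : ℕ} (hn : 4 ≤ n) {L : ℕ} (h1 : (trees n).card + 2 * n ≤ L)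
    (h2 : L + 2 * n + 1 ≤ (trees (n + 1)).card) : L ∈ LS (n + 1) := by
  obtain ⟨a, b, c, d, rest, h, hl, ha, hb, hc, hd⟩ := ham n hn
  have hsum := sum_kk h.nodup h.size hl
  have hmem : comb n ∈ a :: b :: c :: d :: rest := by
    have h3 : (a :: b :: c :: d :: rest).toFinset = trees n := by
      apply Finset.eq_of_subset_of_card_le
      · intro t ht
        rw [List.mem_toFinset] at ht
        exact mem_trees.mpr (h.size t ht)
      · rw [List.toFinset_card_of_nodup h.nodup, hl]
    rw [← List.mem_toFinset, h3, mem_trees, size_comb]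
  have hkc := kk_comb n
  have hna : comb n ≠ a := by rintro h; rw [h] at hkc; omega
  have hnb : comb n ≠ b := by rintro h; rw [h] at hkc; omega
  have hm1 : comb n ∈ c :: d :: rest := by
    simp only [List.mem_cons] at hmem ⊢
    rcases hmem with h | h | h
    · exact absurd h hna
    · exact absurd h hnb
    · exact h
  by_cases hev : Even rest.length
  · have hrot : Cyc n (c :: d :: (rest ++ [a, b])) := by
      have h3 : Cyc n ([a, b] ++ (c :: d :: rest)) := h
      exact h3.rotate (by simp) (by simp)
    obtain ⟨W, y, hy, hW, hWl⟩ := interval_trail hn hrot.chain hrot.nodup hrot.size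
      (by simp only [List.length_append, List.length_cons, List.length_nil]
          rw [Nat.even_add]; simp [hev]) hc hd (L := L)
      (by simp only [List.mem_cons, List.mem_append] at hm1 ⊢; tauto)
      (by simp only [List.length_append, List.length_cons, List.length_nil] at hl ⊢; omega)
      (by simp only [List.map_cons, List.map_append, List.sum_cons, List.sum_append,
            List.map_nil, List.sum_nil] at hsum ⊢; omega)
    have hyb : y = b := by
      have h5 : (c :: d :: (rest ++ [a, b])).getLast? = some b := by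
        have h6 : c :: d :: (rest ++ [a, b]) = (c :: d :: (rest ++ [a])) ++ [b] := by simp
        rw [h6, List.getLast?_append]; rfl
      rw [h5] at hy
      exact (Option.some.inj hy).symm
    subst hyb
    refine ⟨by omega, W, ⟨hW.chain, ?_, hW.nodup, hW.size_eq hrot.size⟩, hWl⟩
    intro x hx z hz
    rw [hW.last] at hx
    rw [hW.head] at hz
    simp only [Option.mem_def, Option.some.injEq] at hx hz
    subst hx hz
    have hch := h.chain
    rw [List.isChain_cons_cons, List.isChain_cons_cons] at hch
    exact hch.2.1.lson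
  · have hrot : Cyc n ((c :: d :: (rest ++ [a])) ++ [b]) := by
      have h3 : Cyc n ([a, b] ++ (c :: d :: rest)) := h
      have h4 := h3.rotate (by simp) (by simp)
      simpa using h4
    have hch := hrot.chain
    rw [List.isChain_append] at hch
    have hnd := hrot.nodup
    rw [List.nodup_append] at hnd
    have hlen : L - 1 + 1 = L := by omega
    obtain ⟨W, y, hy, hW, hWl⟩ := interval_trail hn hch.1 hnd.1
      (fun t ht => hrot.size t (List.mem_append_left _ ht))
      (by simp only [List.length_append, List.length_cons, List.length_nil]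
          rw [Nat.even_add_one]; exact hev) hc hd (L := L - 1)
      (by simp only [List.mem_cons, List.mem_append] at hm1 ⊢; tauto)
      (by simp only [List.length_append, List.length_cons, List.length_nil] at hl ⊢; omega)
      (by simp only [List.map_cons, List.map_append, List.sum_cons, List.sum_append,
            List.map_nil, List.sum_nil] at hsum ⊢; omega)
    have hya : y = a := by
      have h5 : (c :: d :: (rest ++ [a])).getLast? = some a := by
        have h6 : c :: d :: (rest ++ [a]) = (c :: d :: rest) ++ [a] := by simp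
        rw [h6, List.getLast?_append]; rfl
      rw [h5] at hy
      exact (Option.some.inj hy).symm
    subst hya
    have hch2 := h.chain
    rw [List.isChain_cons_cons, List.isChain_cons_cons] at hch2
    have hWf := hW.father_mem
    refine ⟨by omega, W ++ [lson b], ⟨?_, ?_, ?_, ?_⟩, ?_⟩
    · rw [List.isChain_append]
      refine ⟨hW.chain, by simp, ?_⟩
      intro x hx z hz
      rw [hW.last] at hx
      simp only [List.head?_cons, Option.mem_def, Option.some.injEq] at hx hz
      subst hx hz
      exact hch2.1.lson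
    · intro x hx z hz
      rw [List.head?_append, hW.head] at hz
      simp at hx hz
      subst hx hz
      exact hch2.2.1.lson
    · refine nodup_append_of_father (D₂ := [b]) hW.nodup (by simp) hWf ?_ ?_
      · intro w hw
        simp only [List.mem_cons, List.not_mem_nil, or_false] at hw
        subst hw
        simp [father_lson]
      · intro t ht hb'
        exact hnd.2.2 t ht t hb' rfl
    · intro t ht
      rw [List.mem_append] at ht
      rcases ht with ht | ht
      · exact hW.size_eq (fun t ht => hrot.size t (List.mem_append_left _ ht)) t ht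
      · simp only [List.mem_cons, List.not_mem_nil, or_false] at ht
        subst ht
        rw [size_lson, h.size b (by simp)]
    · rw [List.length_append, hWl]
      simpa using hlen

open Classical in
/-- The number of the missing lengths. -/
noncomputable def miss (n : ℕ) : ℕ :=
  ((Finset.range ((trees n).card + 1)).filter (fun L => L ∉ LS n)).card

lemma miss_succ {n : ℕ} (hn : 4 ≤ n) : miss (n + 1) ≤ miss n + (4 * n + 1) := by
  classical
  have hsub : (Finset.range ((trees (n + 1)).card + 1)).filter (fun L => L ∉ LS (n + 1)) ⊆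
      ((Finset.range ((trees n).card + 1)).filter (fun L => L ∉ LS n)) ∪
      (Finset.Ioo (trees n).card ((trees n).card + 2 * n) ∪
        Finset.Ioc ((trees (n + 1)).card - (2 * n + 1)) (trees (n + 1)).card) := by
    intro L hL
    simp only [Finset.mem_filter, Finset.mem_range, Finset.mem_union, Finset.mem_Ioo,
      Finset.mem_Ioc] at hL ⊢
    obtain ⟨hL1, hL2⟩ := hL
    by_cases h1 : L ≤ (trees n).card
    · left
      exact ⟨by omega, fun h => hL2 (LS_succ h)⟩
    · right
      by_cases h2 : L < (trees n).card + 2 * n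
      · left; omega
      · right
        by_contra h3
        apply hL2
        apply LS_interval hn (by omega)
        omega
  have h := (Finset.card_le_card hsub).trans (Finset.card_union_le _ _)
  have h' := Finset.card_union_le (Finset.Ioo (trees n).card ((trees n).card + 2 * n))
    (Finset.Ioc ((trees (n + 1)).card - (2 * n + 1)) (trees (n + 1)).card)
  rw [Nat.card_Ioo, Nat.card_Ioc] at h'
  unfold miss
  omega

lemma miss_le (n : ℕ) (hn : 4 ≤ n) : miss n ≤ miss 4 + 4 * n ^ 2 := by
  induction n, hn using Nat.le_induction with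
  | base => omega
  | succ n hn ih =>
    have := miss_succ hn
    have e : 4 * (n + 1) ^ 2 = 4 * n ^ 2 + 8 * n + 4 := by ring
    omega

lemma pow_le_card (n : ℕ) : 2 ^ n ≤ (trees (n + 1)).card := by
  induction n with
  | zero => decide
  | succ n ih =>
    rw [card_trees_succ]
    have : ∑ t ∈ trees (n + 1), 2 ≤ ∑ t ∈ trees (n + 1), kk t := by
      apply Finset.sum_le_sum
      intro t ht
      rw [mem_trees] at ht
      exact two_le_kk (by omega)
    rw [Finset.sum_const, smul_eq_mul] at this
    calc 2 ^ (n + 1) = 2 ^ n * 2 := by ring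
      _ ≤ (trees (n + 1)).card * 2 := Nat.mul_le_mul_right _ ih
      _ ≤ _ := this

lemma card_LS (n : ℕ) : (trees n).card ≤ (LS n).ncard + miss n := by
  classical
  have h := Finset.card_filter_add_card_filter_not (s := Finset.range ((trees n).card + 1))
    (fun L => L ∈ LS n)
  rw [Finset.card_range] at h
  have e : (LS n) = ↑((Finset.range ((trees n).card + 1)).filter (fun L => L ∈ LS n)) := by
    ext L
    simp only [Finset.coe_filter, Finset.mem_range, Set.mem_ofPred_eq]
    exact ⟨fun h => ⟨by have := LS_le h; omega, h⟩, fun h => h.2⟩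
  have h2 : (LS n).ncard = ((Finset.range ((trees n).card + 1)).filter (fun L => L ∈ LS n)).card := by
    rw [← Set.ncard_coe_finset, ← e]
  rw [h2]
  unfold miss
  have h3 : (Finset.filter (fun L => ¬L ∈ LS n) (Finset.range ((trees n).card + 1))).card =
    (Finset.filter (fun L => L ∉ LS n) (Finset.range ((trees n).card + 1))).card := rfl
  omega

/-! ### From lists to cycles of graphs -/

/-- A closed list without repetition is a cycle. -/
lemma mem_cycleSpectrum {V : Type*} (G : SimpleGraph V) (C : List V) (hc : C.IsChain G.Adj)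
    (hclose : ∀ x ∈ C.getLast?, ∀ y ∈ C.head?, G.Adj x y) (hnd : C.Nodup) (h3 : 3 ≤ C.length) :
    C.length ∈ cycleSpectrum G := by
  have hne : C ≠ [] := by rintro rfl; simp at h3
  have hadj : G.Adj (C.getLast hne) (C.head hne) :=
    hclose _ (List.getLast?_eq_some_getLast hne) _ (List.head?_eq_some_head hne)
  let p := SimpleGraph.Walk.ofSupport C hne hc
  have hp : p.IsPath := by
    rw [SimpleGraph.Walk.isPath_def]
    simp only [p, SimpleGraph.Walk.support_ofSupport]
    exact hnd
  have hlen : p.length = C.length - 1 := SimpleGraph.Walk.length_ofSupport hne hc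
  refine ⟨_, SimpleGraph.Walk.cons hadj p, ?_, ?_⟩
  · rw [SimpleGraph.Walk.cons_isCycle_iff]
    refine ⟨hp, fun h => ?_⟩
    rw [Sym2.eq_swap] at h
    have := hp.length_eq_one_of_mem_edges h
    omega
  · rw [SimpleGraph.Walk.length_cons, hlen]
    omega

lemma le_card_of_mem_cycleSpectrum {V : Type*} [Fintype V] (G : SimpleGraph V) {L : ℕ}
    (h : L ∈ cycleSpectrum G) : L ≤ Fintype.card V := by
  obtain ⟨v, w, hw, rfl⟩ := h
  have h1 := hw.support_nodup.length_le_card
  rw [List.length_tail, SimpleGraph.Walk.length_support] at h1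
  omega

lemma one_le_of_mem_cycleSpectrum {V : Type*} (G : SimpleGraph V) {L : ℕ}
    (h : L ∈ cycleSpectrum G) : 3 ≤ L := by
  obtain ⟨v, w, hw, rfl⟩ := h
  exact hw.three_le_length

lemma ncard_cycleSpectrum_le {V : Type*} [Fintype V] (G : SimpleGraph V) :
    (cycleSpectrum G).ncard ≤ Fintype.card V ∧ (cycleSpectrum G).Finite := by
  have hsub : cycleSpectrum G ⊆ ↑(Finset.Icc 1 (Fintype.card V)) := by
    intro L hL
    have h1 := le_card_of_mem_cycleSpectrum G hL
    have h2 := one_le_of_mem_cycleSpectrum G hL
    simp only [Finset.coe_Icc, Set.mem_Icc]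
    omega
  refine ⟨?_, (Finset.finite_toSet _).subset hsub⟩
  have := Set.ncard_le_ncard hsub (Finset.finite_toSet _)
  rw [Set.ncard_coe_finset, Nat.card_Icc] at this
  omega

open Classical in
/-- **The cycle spectrum** has density one, given the polygon lemma. -/
theorem main (hP : PolygonLemma) :
    Tendsto (fun N : ℕ => ((cycleSpectrum (flipGraph N)).ncard : ℝ) /
      (Fintype.card (Triangulation N) : ℝ)) atTop (𝓝 1) := by
  rw [← tendsto_add_atTop_iff_nat 2]
  -- the number of triangulations
  have hcard : ∀ n : ℕ, 1 ≤ n → Fintype.card (Triangulation (n + 2)) = (trees n).card := by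
    intro n hn
    obtain ⟨φ, hφ, _⟩ := hP n hn
    have h1 : Nat.card {t : BT // t.size = n} = Nat.card (Triangulation (n + 2)) :=
      Nat.card_eq_of_bijective φ hφ
    rw [Nat.card_eq_fintype_card (α := Triangulation (n + 2))] at h1
    rw [← h1]
    have h2 : {t : BT | t.size = n} = ↑(trees n) := by
      ext t; simp [mem_trees]
    have h3 : Nat.card {t : BT // t.size = n} = ({t : BT | t.size = n} : Set BT).ncard := rfl
    rw [h3, h2, Set.ncard_coe_finset]
  have hLS : ∀ n : ℕ, 1 ≤ n → LS n ⊆ cycleSpectrum (flipGraph (n + 2)) := by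
    intro n hn L hL
    obtain ⟨φ, hφ, hR⟩ := hP n hn
    obtain ⟨h3, C, hC, rfl⟩ := hL
    have key := mem_cycleSpectrum (flipGraph (n + 2))
      (C.attach.map (fun t => φ ⟨t.1, hC.size t.1 t.2⟩)) ?_ ?_ ?_ ?_
    · simpa using key
    · rw [List.isChain_map]
      have h4 : (C.attach.map Subtype.val).IsChain Adj := by
        rw [List.attach_map_subtype_val]; exact hC.chain
      rw [List.isChain_map] at h4
      refine h4.imp (fun s t h => ?_)
      rcases h with h | h
      · exact hR _ _ h
      · exact (hR _ _ h).symm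
    · intro x hx y hy
      rw [List.getLast?_map] at hx
      rw [List.head?_map] at hy
      simp only [Option.mem_def, Option.map_eq_some_iff] at hx hy
      obtain ⟨x', hx', rfl⟩ := hx
      obtain ⟨y', hy', rfl⟩ := hy
      have h5 : x'.1 ∈ C.getLast? := by
        have e := congrArg List.getLast? (List.attach_map_subtype_val C)
        rw [List.getLast?_map, hx'] at e
        exact e.symm
      have h6 : y'.1 ∈ C.head? := by
        have e := congrArg List.head? (List.attach_map_subtype_val C)
        rw [List.head?_map, hy'] at e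
        exact e.symm
      rcases hC.close _ h5 _ h6 with h | h
      · exact hR _ _ h
      · exact (hR _ _ h).symm
    · refine (List.nodup_attach.mpr hC.nodup).map ?_
      intro s t h
      have := hφ.1 h
      simp only [Subtype.mk.injEq] at this
      exact Subtype.ext this
    · simpa using h3
  -- the squeeze
  have hlow : ∀ n : ℕ, 4 ≤ n → 1 - ((miss 4 : ℝ) + 4 * (n : ℝ) ^ 2) / 2 ^ (n - 1) ≤
      ((cycleSpectrum (flipGraph (n + 2))).ncard : ℝ) /
      (Fintype.card (Triangulation (n + 2)) : ℝ) := by
    intro n hn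
    rw [hcard n (by omega)]
    have hp : 2 ^ (n - 1) ≤ (trees n).card := by
      have := pow_le_card (n - 1)
      rwa [show n - 1 + 1 = n by omega] at this
    have hpos : (0 : ℝ) < 2 ^ (n - 1) := by positivity
    have hp' : (2 : ℝ) ^ (n - 1) ≤ ((trees n).card : ℝ) := by exact_mod_cast hp
    have hpos' : (0 : ℝ) < ((trees n).card : ℝ) := lt_of_lt_of_le hpos hp'
    have hfin := (ncard_cycleSpectrum_le (flipGraph (n + 2))).2
    have h1 : (LS n).ncard ≤ (cycleSpectrum (flipGraph (n + 2))).ncard :=
      Set.ncard_le_ncard (hLS n (by omega)) hfin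
    have h2 := card_LS n
    have h3 := miss_le n hn
    have h4 : ((trees n).card : ℝ) ≤ ((cycleSpectrum (flipGraph (n + 2))).ncard : ℝ) +
        ((miss 4 : ℝ) + 4 * (n : ℝ) ^ 2) := by
      have : (trees n).card ≤ (cycleSpectrum (flipGraph (n + 2))).ncard +
        (miss 4 + 4 * n ^ 2) := by omega
      exact_mod_cast this
    have h5 : ((miss 4 : ℝ) + 4 * (n : ℝ) ^ 2) / ((trees n).card : ℝ) ≤
        ((miss 4 : ℝ) + 4 * (n : ℝ) ^ 2) / 2 ^ (n - 1) := by
      apply div_le_div_of_nonneg_left _ hpos hp'
      positivity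
    have h6 : (1 : ℝ) ≤ ((cycleSpectrum (flipGraph (n + 2))).ncard : ℝ) / ((trees n).card : ℝ) +
        ((miss 4 : ℝ) + 4 * (n : ℝ) ^ 2) / ((trees n).card : ℝ) := by
      rw [← add_div, le_div_iff₀ hpos', one_mul]
      exact h4
    linarith
  have hup : ∀ n : ℕ, ((cycleSpectrum (flipGraph (n + 2))).ncard : ℝ) /
      (Fintype.card (Triangulation (n + 2)) : ℝ) ≤ 1 := by
    intro n
    apply div_le_one_of_le₀ _ (by positivity)
    exact_mod_cast (ncard_cycleSpectrum_le (flipGraph (n + 2))).1
  have hlim : Tendsto (fun n : ℕ => 1 - ((miss 4 : ℝ) + 4 * (n : ℝ) ^ 2) / 2 ^ (n - 1))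
      atTop (𝓝 1) := by
    have h1 : Tendsto (fun n : ℕ => (n : ℝ) ^ 2 / (2 : ℝ) ^ n) atTop (𝓝 0) :=
      tendsto_pow_const_div_const_pow_of_one_lt 2 (by norm_num)
    have h0 : Tendsto (fun n : ℕ => (n : ℝ) ^ 0 / (2 : ℝ) ^ n) atTop (𝓝 0) :=
      tendsto_pow_const_div_const_pow_of_one_lt 0 (by norm_num)
    have h2 : Tendsto (fun n : ℕ => 1 - (2 * (miss 4 : ℝ) * ((n : ℝ) ^ 0 / (2 : ℝ) ^ n) +
        8 * ((n : ℝ) ^ 2 / (2 : ℝ) ^ n))) atTop (𝓝 (1 - (2 * (miss 4 : ℝ) * 0 + 8 * 0))) :=
      tendsto_const_nhds.sub ((h0.const_mul _).add (h1.const_mul _))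
    rw [mul_zero, mul_zero, add_zero, sub_zero] at h2
    refine h2.congr' ?_
    filter_upwards [eventually_ge_atTop 1] with n hn
    obtain ⟨m, rfl⟩ : ∃ m, n = m + 1 := ⟨n - 1, by omega⟩
    rw [show m + 1 - 1 = m by omega, pow_succ]
    have : (2 : ℝ) ^ m ≠ 0 := by positivity
    field_simp
    ring
  refine tendsto_of_tendsto_of_tendsto_of_le_of_le' hlim tendsto_const_nhds ?_ ?_
  · filter_upwards [eventually_ge_atTop 4] with n hn
    exact hlow n hn
  · exact Eventually.of_forall hup

end Pool.Agent.R651.Asc
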