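import Pool.Agent.R651.Asc.Defs

set_option autoImplicit false

namespace Pool.Agent.R651.Asc

/-- Adjacency of trees: one rotation. -/
def Adj (s t : BT) : Prop := Rot s t ∨ Rot t s

lemma Adj.symm {s t : BT} (h : Adj s t) : Adj t s := Or.symm h

lemma Rot.size_eq {s t : BT} (h : Rot s t) : s.size = t.size := by
  induction h with
  | root a b c => simp [BT.size]; omega
  | left r _ ih => simp [BT.size, ih]
  | right l _ ih => simp [BT.size, ih]

lemma Adj.size_eq {s t : BT} (h : Adj s t) : s.size = t.size := by
  rcases h with h | h
  · exact h.size_eq
  · exact h.size_eq.symm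

/-- A potential that decreases under rotations. -/
def pot : BT → ℕ
  | .leaf => 0
  | .node l r => pot l + pot r + l.size

lemma Rot.pot_lt {s t : BT} (h : Rot s t) : pot t < pot s := by
  induction h with
  | root a b c => simp [pot, BT.size]; omega
  | left r h ih => have := h.size_eq; simp [pot, this]; omega
  | right l _ ih => simp [pot]; omega

lemma Adj.ne {s t : BT} (h : Adj s t) : s ≠ t := by
  rintro rfl
  rcases h with h | h <;> exact absurd h.pot_lt (lt_irrefl _)

/-- The sons of a tree, from the left one to the right one. -/
def sons : BT → List BT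
  | .leaf => [.node .leaf .leaf]
  | .node l r => .node .leaf (.node l r) :: (sons l).map (fun s => .node s r)

/-- The left son. -/
def lson (t : BT) : BT := .node .leaf t

/-- The right son. -/
def rson : BT → BT
  | .leaf => .node .leaf .leaf
  | .node l r => .node (rson l) r

/-- The number of sons. -/
def kk : BT → ℕ
  | .leaf => 1
  | .node l _ => kk l + 1

lemma length_sons (t : BT) : (sons t).length = kk t := by
  induction t with
  | leaf => rfl
  | node l r ih _ => simp [sons, kk, ih]

lemma sons_ne_nil (t : BT) : sons t ≠ [] := by
  cases t <;> simp [sons]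

lemma head?_sons (t : BT) : (sons t).head? = some (lson t) := by
  cases t <;> simp [sons, lson]

lemma getLast?_sons (t : BT) : (sons t).getLast? = some (rson t) := by
  induction t with
  | leaf => rfl
  | node l r ih _ =>
    have h : ((sons l).map (fun s => BT.node s r)).getLast? = some (.node (rson l) r) := by
      rw [List.getLast?_map, ih]; rfl
    rw [sons, List.getLast?_cons, h]; rfl

lemma Adj.left {l l' : BT} (h : Adj l l') (r : BT) : Adj (.node l r) (.node l' r) := by
  rcases h with h | h
  · exact Or.inl (.left r h)
  · exact Or.inr (.left r h)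

lemma Adj.right {r r' : BT} (h : Adj r r') (l : BT) : Adj (.node l r) (.node l r') := by
  rcases h with h | h
  · exact Or.inl (.right l h)
  · exact Or.inr (.right l h)

lemma chain_sons (t : BT) : (sons t).IsChain Adj := by
  induction t with
  | leaf => simp [sons]
  | node l r ih _ =>
    rw [sons, List.isChain_cons]
    constructor
    · intro y hy
      rw [List.head?_map, head?_sons] at hy
      simp only [Option.map_some, Option.mem_def, Option.some.injEq] at hy
      subst hy
      exact Or.inr (.root .leaf l r)
    · rw [List.isChain_map]
      exact ih.imp (fun a b h => h.left r)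

/-- The father of a tree. -/
def father : BT → BT
  | .leaf => .leaf
  | .node .leaf r => r
  | .node (.node a b) r => .node (father (.node a b)) r

lemma father_node_ne {s : BT} (hs : s ≠ .leaf) (r : BT) :
    father (.node s r) = .node (father s) r := by
  cases s with
  | leaf => exact absurd rfl hs
  | node a b => rfl

lemma ne_leaf_of_mem {s t : BT} (h : s ∈ sons t) : s ≠ .leaf := by
  cases t with
  | leaf => simp [sons] at h; simp [h]
  | node l r =>
    simp only [sons, List.mem_cons, List.mem_map] at h
    rcases h with h | ⟨u, _, h⟩
    · simp [h]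
    · simp [← h]

lemma father_of_mem {s t : BT} (h : s ∈ sons t) : father s = t := by
  induction t generalizing s with
  | leaf => simp [sons] at h; simp [h, father]
  | node l r ih _ =>
    simp only [sons, List.mem_cons, List.mem_map] at h
    rcases h with h | ⟨u, hu, h⟩
    · simp [h, father]
    · rw [← h, father_node_ne (ne_leaf_of_mem hu), ih hu]

lemma mem_sons_father {s : BT} (h : s ≠ .leaf) : s ∈ sons (father s) := by
  induction s with
  | leaf => exact absurd rfl h
  | node l r ih _ =>
    cases l with
    | leaf =>
      simp only [father]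
      have := head?_sons r
      exact List.mem_of_mem_head? (by rw [this]; rfl)
    | node a b =>
      have h1 := ih (by simp)
      simp only [father]
      simp only [sons, List.mem_cons, List.mem_map]
      exact Or.inr ⟨_, h1, rfl⟩

lemma size_of_mem {s t : BT} (h : s ∈ sons t) : s.size = t.size + 1 := by
  induction t generalizing s with
  | leaf => simp [sons] at h; simp [h, BT.size]
  | node l r ih _ =>
    simp only [sons, List.mem_cons, List.mem_map] at h
    rcases h with h | ⟨u, hu, h⟩
    · simp [h, BT.size]
    · rw [← h]; simp only [BT.size, ih hu]; omega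

lemma node_left_injective (r : BT) : Function.Injective (fun s => BT.node s r) := by
  intro a b h
  simpa using h

lemma nodup_sons (t : BT) : (sons t).Nodup := by
  induction t with
  | leaf => simp [sons]
  | node l r ih _ =>
    rw [sons, List.nodup_cons]
    refine ⟨?_, ih.map (node_left_injective r)⟩
    intro h
    simp only [List.mem_map, BT.node.injEq] at h
    obtain ⟨u, hu, h1, _⟩ := h
    exact ne_leaf_of_mem hu h1

/-- The number of sons of the sons is `2, 3, …`. -/
lemma map_kk_sons (t : BT) : (sons t).map kk = List.range' 2 (kk t) := by
  induction t with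
  | leaf => rfl
  | node l r ih _ =>
    have h : ((sons l).map (fun s => BT.node s r)).map kk = List.range' 3 (kk l) := by
      rw [List.map_map]
      have : (kk ∘ fun s => BT.node s r) = (· + 1) ∘ kk := by
        funext s; simp [kk]
      rw [this, ← List.map_map, ih]
      have h3 : List.map (fun x => 1 + x) (List.range' 2 (kk l) 1) = List.range' (1 + 2) (kk l) 1 :=
        List.map_add_range' 2 (kk l) 1
      rw [show (1 + 2 : ℕ) = 3 from rfl] at h3
      rw [← h3]
      refine List.map_congr_left (fun x _ => ?_)
      exact Nat.add_comm x 1
    rw [sons, List.map_cons, h]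
    simp only [kk]
    rw [List.range'_succ]

/-- Two columns with the rungs between them: a full ladder or a ladder with one pentagon. -/
def Lad (F F' : List BT) : Prop :=
  List.Forall₂ Adj F F' ∨
    ∃ (A : List BT) (x : BT) (B A' B' : List BT), F = A ++ x :: B ∧ F' = A' ++ B' ∧ A ≠ [] ∧
      B ≠ [] ∧ List.Forall₂ Adj A A' ∧ List.Forall₂ Adj B B'

lemma forall₂_map_self {f g : BT → BT} (L : List BT) (h : ∀ s ∈ L, Adj (f s) (g s)) :
    List.Forall₂ Adj (L.map f) (L.map g) := by
  induction L with
  | nil => simp
  | cons a L ih =>
    simp only [List.map_cons, List.forall₂_cons]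
    exact ⟨h a (by simp), ih (fun s hs => h s (by simp [hs]))⟩

lemma forall₂_map {f g : BT → BT} {L L' : List BT} (h : List.Forall₂ Adj L L')
    (hfg : ∀ s t, Adj s t → Adj (f s) (g t)) :
    List.Forall₂ Adj (L.map f) (L'.map g) := by
  induction h with
  | nil => simp
  | cons h _ ih => simp only [List.map_cons, List.forall₂_cons]; exact ⟨hfg _ _ h, ih⟩

lemma lad_of_rot {s t : BT} (h : Rot s t) : Lad (sons s) (sons t) := by
  induction h with
  | root a b c =>
    right
    refine ⟨[.node .leaf (.node (.node a b) c)], .node (.node .leaf (.node a b)) c,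
      ((sons a).map (fun s => .node s b)).map (fun s => .node s c),
      [.node .leaf (.node a (.node b c))], (sons a).map (fun s => .node s (.node b c)), ?_, ?_,
      by simp, ?_, ?_, ?_⟩
    · simp [sons]
    · simp [sons]
    · simp [sons_ne_nil]
    · simp only [List.forall₂_cons, List.forall₂_same, List.not_mem_nil, false_imp_iff,
        implies_true, and_true]
      exact Or.inl (.right _ (.root a b c))
    · rw [List.map_map]
      exact forall₂_map_self _ (fun s _ => Or.inl (.root s b c))
  | @left l l' r h ih =>
    rcases ih with ih | ⟨A, x, B, A', B', h1, h2, hA, hB, h3, h4⟩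
    · left
      simp only [sons, List.forall₂_cons]
      exact ⟨Or.inl (.right _ (.left r h)), forall₂_map ih (fun s t hst => hst.left r)⟩
    · right
      refine ⟨.node .leaf (.node l r) :: A.map (fun s => .node s r), .node x r,
        B.map (fun s => .node s r), .node .leaf (.node l' r) :: A'.map (fun s => .node s r),
        B'.map (fun s => .node s r), ?_, ?_, by simp, by simpa using hB, ?_, ?_⟩
      · simp [sons, h1]
      · simp [sons, h2]
      · simp only [List.forall₂_cons]
        exact ⟨Or.inl (.right _ (.left r h)), forall₂_map h3 (fun s t hst => hst.left r)⟩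
      · exact forall₂_map h4 (fun s t hst => hst.left r)
  | @right l r r' h ih =>
    left
    simp only [sons, List.forall₂_cons]
    exact ⟨Or.inl (.right _ (.right l h)), forall₂_map_self _ (fun s _ => Or.inl (.right s h))⟩

lemma lad_of_adj {s t : BT} (h : Adj s t) : Lad (sons s) (sons t) ∨ Lad (sons t) (sons s) := by
  rcases h with h | h
  · exact Or.inl (lad_of_rot h)
  · exact Or.inr (lad_of_rot h)

lemma Adj.lson {s t : BT} (h : Adj s t) : Adj (lson s) (lson t) := h.right _

lemma Rot.rson {s t : BT} (h : Rot s t) : Rot (rson s) (rson t) := by
  induction h with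
  | root a b c => exact .root _ b c
  | left r _ ih => exact .left r ih
  | right l h _ => exact .right _ h

lemma Adj.rson {s t : BT} (h : Adj s t) : Adj (rson s) (rson t) := by
  rcases h with h | h
  · exact Or.inl h.rson
  · exact Or.inr h.rson

lemma kk_lson (t : BT) : kk (lson t) = 2 := rfl

lemma kk_rson (t : BT) : kk (rson t) = kk t + 1 := by
  induction t with
  | leaf => rfl
  | node l r ih _ => simp [rson, kk, ih]

lemma father_lson (t : BT) : father (lson t) = t := rfl

lemma lson_mem (t : BT) : lson t ∈ sons t :=
  List.mem_of_mem_head? (by rw [head?_sons]; rfl)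

lemma rson_mem (t : BT) : rson t ∈ sons t :=
  List.mem_of_mem_getLast? (by rw [getLast?_sons]; rfl)

lemma one_le_kk (t : BT) : 1 ≤ kk t := by
  cases t <;> simp [kk]

lemma two_le_kk {t : BT} (h : 1 ≤ t.size) : 2 ≤ kk t := by
  cases t with
  | leaf => simp [BT.size] at h
  | node l r => have := one_le_kk l; simp only [kk]; omega

lemma kk_le (t : BT) : kk t ≤ t.size + 1 := by
  induction t with
  | leaf => simp [kk]
  | node l r ih _ => simp only [kk, BT.size]; omega

/-- The left comb. -/
def comb : ℕ → BT
  | 0 => .leaf
  | n + 1 => .node (comb n) .leaf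

lemma size_comb (n : ℕ) : (comb n).size = n := by
  induction n with
  | zero => rfl
  | succ n ih => simp [comb, BT.size, ih]

lemma kk_comb (n : ℕ) : kk (comb n) = n + 1 := by
  induction n with
  | zero => rfl
  | succ n ih => simp [comb, kk, ih]

lemma eq_comb {t : BT} (h : kk t = t.size + 1) : t = comb t.size := by
  induction t with
  | leaf => rfl
  | node l r ih _ =>
    have h1 := kk_le l
    simp only [kk, BT.size] at h
    have hr : r.size = 0 := by omega
    have hl : kk l = l.size + 1 := by omega
    cases r with
    | leaf => simp only [BT.size, comb]; rw [← ih hl]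
    | node a b => simp [BT.size] at hr

lemma sons_of_kk_two {t : BT} (h : kk t = 2) : sons t = [lson t, rson t] := by
  have hl := length_sons t
  rw [h] at hl
  obtain ⟨a, b, hab⟩ := List.length_eq_two.mp hl
  have h1 := head?_sons t
  have h2 := getLast?_sons t
  rw [hab] at h1 h2
  simp at h1 h2
  rw [hab, h1, h2]

lemma sons_of_kk_three {t : BT} (h : kk t = 3) :
    ∃ m, sons t = [lson t, m, rson t] ∧ kk m = 3 := by
  have hl := length_sons t
  rw [h] at hl
  obtain ⟨a, b, c, hab⟩ := List.length_eq_three.mp hl
  have h1 := head?_sons t
  have h2 := getLast?_sons t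
  have h3 := map_kk_sons t
  rw [hab] at h1 h2 h3
  simp at h1 h2
  refine ⟨b, by rw [hab, h1, h2], ?_⟩
  rw [h] at h3
  simp [List.range'] at h3
  omega

/-- The trees with `n` inner nodes. -/
def trees : ℕ → Finset BT
  | 0 => {.leaf}
  | n + 1 => (trees n).biUnion (fun t => (sons t).toFinset)

lemma size_father {t : BT} (h : t ≠ .leaf) : (father t).size + 1 = t.size := by
  rw [size_of_mem (mem_sons_father h)]

lemma mem_trees {n : ℕ} {t : BT} : t ∈ trees n ↔ t.size = n := by
  induction n generalizing t with
  | zero =>
    cases t with
    | leaf => simp [trees, BT.size]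
    | node l r => simp [trees, BT.size]
  | succ n ih =>
    simp only [trees, Finset.mem_biUnion, List.mem_toFinset]
    constructor
    · rintro ⟨s, hs, ht⟩
      rw [size_of_mem ht, ih.mp hs]
    · intro h
      have hne : t ≠ .leaf := by rintro rfl; simp [BT.size] at h
      refine ⟨father t, ih.mpr ?_, mem_sons_father hne⟩
      have := size_father hne
      omega

lemma card_trees_succ (n : ℕ) : (trees (n + 1)).card = ∑ t ∈ trees n, kk t := by
  rw [trees, Finset.card_biUnion]
  · refine Finset.sum_congr rfl (fun t _ => ?_)
    rw [List.toFinset_card_of_nodup (nodup_sons t), length_sons]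
  · intro s _ t _ hst
    rw [Function.onFun, Finset.disjoint_left]
    intro u hu hu'
    rw [List.mem_toFinset] at hu hu'
    exact hst ((father_of_mem hu).symm.trans (father_of_mem hu'))

end Pool.Agent.R651.Asc
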