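import Pool.Agent.R651.Asc.Trees

set_option autoImplicit false

open scoped Pointwise

namespace Pool.Agent.R651.Asc

/-- A path from the left son of `x` to the left son of `y` through sons of members of `D`. -/
structure Trail (D : List BT) (x y : BT) (W : List BT) : Prop where
  chain : W.IsChain Adj
  head : W.head? = some (lson x)
  last : W.getLast? = some (lson y)
  nodup : W.Nodup
  mem : ∀ w ∈ W, ∃ t ∈ D, w ∈ sons t

lemma Trail.append {D₁ D₂ : List BT} {x₁ y₁ x₂ y₂ : BT} {W₁ W₂ : List BT}
    (h1 : Trail D₁ x₁ y₁ W₁) (h2 : Trail D₂ x₂ y₂ W₂) (hadj : Adj y₁ x₂)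
    (hdis : ∀ t ∈ D₁, t ∉ D₂) : Trail (D₁ ++ D₂) x₁ y₂ (W₁ ++ W₂) := by
  refine ⟨?_, ?_, ?_, ?_, ?_⟩
  · refine h1.chain.append h2.chain ?_
    intro a ha b hb
    rw [h1.last] at ha
    rw [h2.head] at hb
    simp only [Option.mem_def, Option.some.injEq] at ha hb
    subst ha hb
    exact hadj.lson
  · rw [List.head?_append, h1.head]; rfl
  · rw [List.getLast?_append, h2.last]; rfl
  · rw [List.nodup_append]
    refine ⟨h1.nodup, h2.nodup, ?_⟩
    intro a ha b hb hab
    subst hab
    obtain ⟨t, ht, hat⟩ := h1.mem a ha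
    obtain ⟨s, hs, has⟩ := h2.mem a hb
    have : t = s := (father_of_mem hat).symm.trans (father_of_mem has)
    exact hdis t ht (this ▸ hs)
  · intro w hw
    rcases List.mem_append.mp hw with hw | hw
    · obtain ⟨t, ht, h⟩ := h1.mem w hw
      exact ⟨t, List.mem_append_left _ ht, h⟩
    · obtain ⟨t, ht, h⟩ := h2.mem w hw
      exact ⟨t, List.mem_append_right _ ht, h⟩

lemma head?_of_prefix {u F : List BT} (hu : u <+: F) (hu0 : u ≠ []) : u.head? = F.head? := by
  obtain ⟨w, rfl⟩ := hu
  cases u with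
  | nil => exact absurd rfl hu0
  | cons a u => rfl

lemma chain_of_pre {u : List BT} {x : BT} (hu : u <+: sons x) : u.IsChain Adj := by
  obtain ⟨w, hw⟩ := hu
  have := chain_sons x
  rw [← hw] at this
  exact this.left_of_append

lemma trail_block {x y : BT} {u v : List BT} (hxy : x ≠ y) (hu : u <+: sons x)
    (hv : v <+: sons y) (hu0 : u ≠ []) (hv0 : v ≠ [])
    (hadj : ∀ a ∈ u.getLast?, ∀ b ∈ v.getLast?, Adj a b) :
    Trail [x, y] x y (u ++ v.reverse) := by
  refine ⟨?_, ?_, ?_, ?_, ?_⟩
  · refine (chain_of_pre hu).append ?_ ?_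
    · rw [List.isChain_reverse]
      exact (chain_of_pre hv).imp (fun a b h => h.symm)
    · intro a ha b hb
      rw [List.head?_reverse] at hb
      exact hadj a ha b hb
  · rw [List.head?_append, head?_of_prefix hu hu0, head?_sons]; rfl
  · rw [List.getLast?_append, List.getLast?_reverse, head?_of_prefix hv hv0, head?_sons]; rfl
  · rw [List.nodup_append]
    refine ⟨(nodup_sons x).sublist hu.sublist, ?_, ?_⟩
    · rw [List.nodup_reverse]; exact (nodup_sons y).sublist hv.sublist
    · intro a ha b hb hab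
      subst hab
      rw [List.mem_reverse] at hb
      exact hxy ((father_of_mem (hu.subset ha)).symm.trans (father_of_mem (hv.subset hb)))
  · intro w hw
    rcases List.mem_append.mp hw with hw | hw
    · exact ⟨x, by simp, hu.subset hw⟩
    · rw [List.mem_reverse] at hw
      exact ⟨y, by simp, hv.subset hw⟩

/-- The lengths of the blocks over the pair `x, y`. -/
def BL (x y : BT) : Set ℕ := {n | ∃ W, Trail [x, y] x y W ∧ W.length = n}

lemma BL_swap {x y : BT} {n : ℕ} (h : n ∈ BL x y) : n ∈ BL y x := by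
  obtain ⟨W, hW, rfl⟩ := h
  refine ⟨W.reverse, ⟨?_, ?_, ?_, ?_, ?_⟩, by simp⟩
  · rw [List.isChain_reverse]; exact hW.chain.imp (fun a b h => h.symm)
  · rw [List.head?_reverse]; exact hW.last
  · rw [List.getLast?_reverse]; exact hW.head
  · rw [List.nodup_reverse]; exact hW.nodup
  · intro w hw
    rw [List.mem_reverse] at hw
    obtain ⟨t, ht, h⟩ := hW.mem w hw
    refine ⟨t, ?_, h⟩
    simp only [List.mem_cons, List.not_mem_nil, or_false] at ht ⊢
    exact ht.symm

lemma last_rel {L L' : List BT} (h : List.Forall₂ Adj L L') :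
    ∀ a ∈ L.getLast?, ∀ b ∈ L'.getLast?, Adj a b := by
  induction h with
  | nil => simp
  | @cons a b l l' h h' ih =>
    cases h' with
    | nil => simpa using h
    | cons h1 h2 =>
      intro a ha b hb
      rw [List.getLast?_cons_cons] at ha hb
      exact ih a ha b hb

lemma BL_low {x y : BT} {A B A' B' : List BT} (hxy : x ≠ y) (h1 : sons x = A ++ B)
    (h2 : sons y = A' ++ B') (h : List.Forall₂ Adj A A') {p : ℕ} (hp : 1 ≤ p)
    (hpA : p ≤ A.length) : 2 * p ∈ BL x y := by
  have hl := h.length_eq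
  refine ⟨A.take p ++ (A'.take p).reverse, trail_block hxy ?_ ?_ ?_ ?_ ?_, ?_⟩
  · rw [h1]; exact (List.take_prefix p A).trans (List.prefix_append A B)
  · rw [h2]; exact (List.take_prefix p A').trans (List.prefix_append A' B')
  · intro h0
    have := congrArg List.length h0
    rw [List.length_take, List.length_nil] at this
    omega
  · intro h0
    have := congrArg List.length h0
    rw [List.length_take, List.length_nil] at this
    omega
  · exact last_rel (List.forall₂_take p h)
  · simp only [List.length_append, List.length_reverse, List.length_take]; omega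

lemma BL_high {x y x0 : BT} {A B A' B' : List BT} (hxy : x ≠ y) (h1 : sons x = A ++ x0 :: B)
    (h2 : sons y = A' ++ B') (hA : List.Forall₂ Adj A A') (h : List.Forall₂ Adj B B')
    {p : ℕ} (hp : 1 ≤ p) (hpB : p ≤ B.length) : 2 * A.length + 1 + 2 * p ∈ BL x y := by
  have hl := h.length_eq
  have hlA := hA.length_eq
  have hne : B.take p ≠ [] := by
    intro h0
    have := congrArg List.length h0
    rw [List.length_take, List.length_nil] at this
    omega
  have hne' : B'.take p ≠ [] := by
    intro h0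
    have := congrArg List.length h0
    rw [List.length_take, List.length_nil] at this
    omega
  refine ⟨(A ++ x0 :: B.take p) ++ (A' ++ B'.take p).reverse, trail_block hxy ?_ ?_ ?_ ?_ ?_, ?_⟩
  · rw [h1]
    refine ⟨B.drop p, ?_⟩
    simp
  · rw [h2]
    refine ⟨B'.drop p, ?_⟩
    simp
  · simp
  · simp [hne']
  · intro a ha b hb
    have h3 := last_rel (List.forall₂_take p h)
    obtain ⟨a', ha'⟩ : ∃ a', (B.take p).getLast? = some a' := by
      cases h5 : (B.take p).getLast? with
      | none => exact absurd (List.getLast?_eq_none_iff.mp h5) hne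
      | some a' => exact ⟨a', rfl⟩
    obtain ⟨b', hb'⟩ : ∃ b', (B'.take p).getLast? = some b' := by
      cases h5 : (B'.take p).getLast? with
      | none => exact absurd (List.getLast?_eq_none_iff.mp h5) hne'
      | some b' => exact ⟨b', rfl⟩
    have h4 := h3 a' ha' b' hb'
    rw [List.getLast?_append, List.getLast?_cons, ha'] at ha
    rw [List.getLast?_append, hb'] at hb
    simp at ha hb
    rw [← ha, ← hb]
    exact h4
  · simp only [List.length_append, List.length_reverse, List.length_take, List.length_cons]; omega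

/-- The lengths of the blocks over an adjacent pair. -/
lemma BL_lad {x y : BT} (hxy : x ≠ y) (h : Lad (sons x) (sons y)) :
    (kk x = kk y ∧ ∀ p, 1 ≤ p → p ≤ kk x → 2 * p ∈ BL x y) ∨
    ∃ q r, 1 ≤ q ∧ 1 ≤ r ∧ kk x = q + 1 + r ∧ kk y = q + r ∧
      (∀ p, 1 ≤ p → p ≤ q → 2 * p ∈ BL x y) ∧ ∀ p, 1 ≤ p → p ≤ r → 2 * q + 1 + 2 * p ∈ BL x y := by
  rcases h with h | ⟨A, x0, B, A', B', h1, h2, hA, hB, h3, h4⟩
  · left
    have hl := h.length_eq
    rw [length_sons, length_sons] at hl
    refine ⟨hl, fun p hp hpx => ?_⟩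
    refine BL_low (A := sons x) (B := []) (A' := sons y) (B' := []) hxy (by simp) (by simp) h hp ?_
    rw [length_sons]; exact hpx
  · right
    have hlA := h3.length_eq
    have hlB := h4.length_eq
    have hx := congrArg List.length h1
    have hy := congrArg List.length h2
    rw [length_sons] at hx hy
    simp only [List.length_append, List.length_cons] at hx hy
    refine ⟨A.length, B.length, List.length_pos_iff.mpr hA, List.length_pos_iff.mpr hB,
      by omega, by omega, fun p hp hpq => ?_, fun p hp hpr => ?_⟩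
    · exact BL_low hxy h1 h2 h3 hp hpq
    · exact BL_high hxy h1 h2 h3 h4 hp hpr

/-- A set with top element `h` and with gaps at most 3 from 2 on. -/
structure Good (B : Set ℕ) (h : ℕ) : Prop where
  top : h ∈ B
  gap : ∀ z, 2 ≤ z → z ≤ h → ∃ b ∈ B, b ≤ z ∧ z < b + 3

lemma good_of_lad {x y : BT} (hxy : x ≠ y) (h : Lad (sons x) (sons y)) :
    Good (BL x y) (kk x + kk y) := by
  have hk := one_le_kk x
  rcases BL_lad hxy h with ⟨h1, h2⟩ | ⟨q, r, hq, hr, hx, hy, h1, h2⟩
  · constructor
    · have := h2 (kk x) hk le_rfl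
      rwa [← h1, ← two_mul]
    · intro z hz hzh
      refine ⟨2 * (z / 2), h2 _ (by omega) (by omega), by omega, by omega⟩
  · constructor
    · have := h2 r hr le_rfl
      have e : kk x + kk y = 2 * q + 1 + 2 * r := by omega
      rwa [e]
    · intro z hz hzh
      by_cases hz1 : z ≤ 2 * q + 2
      · by_cases hz2 : z / 2 ≤ q
        · exact ⟨2 * (z / 2), h1 _ (by omega) hz2, by omega, by omega⟩
        · exact ⟨2 * q, h1 _ hq le_rfl, by omega, by omega⟩
      · refine ⟨2 * q + 1 + 2 * ((z - (2 * q + 1)) / 2), h2 _ (by omega) (by omega), by omega,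
          by omega⟩

lemma BL_comm (x y : BT) : BL x y = BL y x := by
  ext n
  exact ⟨BL_swap, BL_swap⟩

lemma good_BL {x y : BT} (h : Adj x y) : Good (BL x y) (kk x + kk y) := by
  rcases lad_of_adj h with h1 | h1
  · exact good_of_lad h.ne h1
  · rw [BL_comm, add_comm]
    exact good_of_lad h.ne.symm h1

lemma BL_three {x y : BT} (h : Adj x y) (hx : kk x = 3) (hy : kk y = 3) :
    2 ∈ BL x y ∧ 4 ∈ BL x y ∧ 6 ∈ BL x y := by
  have key : ∀ {x y : BT}, Lad (sons x) (sons y) → x ≠ y → kk x = 3 → kk y = 3 →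
      2 ∈ BL x y ∧ 4 ∈ BL x y ∧ 6 ∈ BL x y := by
    intro x y h hxy hx hy
    rcases BL_lad hxy h with ⟨h1, h2⟩ | ⟨q, r, hq, hr, h3, h4, h1, h2⟩
    · exact ⟨h2 1 le_rfl (by omega), h2 2 (by omega) (by omega), h2 3 (by omega) (by omega)⟩
    · omega
  rcases lad_of_adj h with h1 | h1
  · exact key h1 h.ne hx hy
  · rw [BL_comm]
    exact key h1 h.ne.symm hy hx

lemma BL_odd {x y : BT} (h : Adj x y) (hk : kk x ≠ kk y) :
    ∃ b, b ∈ BL x y ∧ b + 3 ∈ BL x y ∧ b + 3 ≤ kk x + kk y := by
  have key : ∀ {x y : BT}, Lad (sons x) (sons y) → x ≠ y → kk x ≠ kk y →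
      ∃ b, b ∈ BL x y ∧ b + 3 ∈ BL x y ∧ b + 3 ≤ kk x + kk y := by
    intro x y h hxy hk
    rcases BL_lad hxy h with ⟨h1, h2⟩ | ⟨q, r, hq, hr, h3, h4, h1, h2⟩
    · exact absurd h1 hk
    · refine ⟨2 * q, h1 q hq le_rfl, ?_, by omega⟩
      have := h2 1 le_rfl hr
      rwa [show 2 * q + 1 + 2 * 1 = 2 * q + 3 by ring] at this
  rcases lad_of_adj h with h1 | h1
  · exact key h1 h.ne hk
  · rw [BL_comm, add_comm (kk x)]
    exact key h1 h.ne.symm hk.symm

lemma add_interval {S B : Set ℕ} {u v h : ℕ} (hB : Good B h)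
    (hS : ∀ n, u ≤ n → n ≤ v → n ∈ S) (huv : u + 2 ≤ v) :
    ∀ n, u + 2 ≤ n → n ≤ v + h → n ∈ B + S := by
  intro n hn1 hn2
  rw [Set.mem_add]
  by_cases hn : h ≤ n - u
  · exact ⟨h, hB.top, n - h, hS _ (by omega) (by omega), by omega⟩
  · obtain ⟨b, hb, h1, h2⟩ := hB.gap (n - u) (by omega) (by omega)
    exact ⟨b, hb, n - b, hS _ (by omega) (by omega), by omega⟩

/-- The list of the members of a list of pairs. -/
def flat (ps : List (BT × BT)) : List BT := ps.flatMap (fun p => [p.1, p.2])

lemma flat_cons (p : BT × BT) (ps : List (BT × BT)) :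
    flat (p :: ps) = p.1 :: p.2 :: flat ps := rfl

/-- Total lengths. -/
def TS (ps : List (BT × BT)) : Set ℕ := (ps.map (fun p => BL p.1 p.2)).sum

lemma TS_cons (p : BT × BT) (ps : List (BT × BT)) : TS (p :: ps) = BL p.1 p.2 + TS ps := by
  simp [TS]

lemma TS_interval {S : Set ℕ} {u v : ℕ} (ps : List (BT × BT)) (hps : ∀ p ∈ ps, Adj p.1 p.2)
    (hS : ∀ n, u ≤ n → n ≤ v → n ∈ S) (huv : u + 2 ≤ v) :
    ∀ n, u + 2 * ps.length ≤ n → n ≤ v + ((flat ps).map kk).sum → n ∈ TS ps + S := by
  induction ps with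
  | nil =>
    intro n h1 h2
    simp only [List.length_nil, mul_zero, add_zero, flat, List.flatMap_nil, List.map_nil,
      List.sum_nil] at h1 h2
    simpa [TS] using hS n h1 h2
  | cons p ps ih =>
    intro n h1 h2
    have ih' := ih (fun q hq => hps q (by simp [hq]))
    rw [TS_cons, add_assoc]
    have hlen : 2 * ps.length ≤ ((flat ps).map kk).sum := by
      clear ih ih' h1 h2 hps
      induction ps with
      | nil => simp
      | cons q ps ih =>
        have := one_le_kk q.1
        have := one_le_kk q.2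
        simp only [flat_cons, List.map_cons, List.sum_cons, List.length_cons]
        omega
    refine add_interval (good_BL (hps p (by simp))) ih' (by omega) n ?_ ?_
    · simp only [List.length_cons] at h1; omega
    · simp only [flat_cons, List.map_cons, List.sum_cons] at h2; omega

lemma exists_trail (p : BT × BT) (ps : List (BT × BT)) (hc : (flat (p :: ps)).IsChain Adj)
    (hd : (flat (p :: ps)).Nodup) {n : ℕ} (hn : n ∈ TS (p :: ps)) :
    ∃ W y, (flat (p :: ps)).getLast? = some y ∧ Trail (flat (p :: ps)) p.1 y W ∧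
      W.length = n := by
  induction ps generalizing p n with
  | nil =>
    have hn' : n ∈ BL p.1 p.2 := by simpa [TS] using hn
    obtain ⟨W, hW, hl⟩ := hn'
    exact ⟨W, p.2, by simp [flat], by simpa [flat] using hW, hl⟩
  | cons q ps ih =>
    rw [TS_cons, Set.mem_add] at hn
    obtain ⟨b, hb, s, hs, rfl⟩ := hn
    rw [flat_cons p] at hc hd ⊢
    have hc1 := hc
    rw [flat_cons q, List.isChain_cons_cons, List.isChain_cons_cons] at hc1
    have hc' : (flat (q :: ps)).IsChain Adj := hc.tail.tail
    have hd1 := hd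
    rw [List.nodup_cons, List.nodup_cons] at hd1
    obtain ⟨W, y, hy, hW, hl⟩ := ih q hc' hd1.2.2 hs
    obtain ⟨V, hV, hVl⟩ := hb
    refine ⟨V ++ W, y, ?_, ?_, ?_⟩
    · rw [List.getLast?_cons, List.getLast?_cons, hy]; rfl
    · have := hV.append hW hc1.2.1 (by
        intro t ht
        simp only [List.mem_cons, List.not_mem_nil, or_false] at ht
        rcases ht with rfl | rfl
        · intro h; exact hd1.1 (List.mem_cons_of_mem _ h)
        · exact hd1.2.1)
      simpa using this
    · rw [List.length_append, hVl, hl]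

/-- Cutting a list into pairs. -/
def pairs : List BT → List (BT × BT)
  | x :: y :: l => (x, y) :: pairs l
  | _ => []

theorem flat_pairs : ∀ D : List BT, Even D.length → flat (pairs D) = D
  | [], _ => rfl
  | [x], h => by simp at h
  | x :: y :: l, h => by
    have h' : Even l.length := by
      simp only [List.length_cons] at h
      rw [Nat.even_add_one, Nat.even_add_one, not_not] at h
      exact h
    rw [pairs, flat_cons, flat_pairs l h']

lemma adj_of_mem_pairs (ps : List (BT × BT)) (hc : (flat ps).IsChain Adj) :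
    ∀ p ∈ ps, Adj p.1 p.2 := by
  induction ps with
  | nil => simp
  | cons q ps ih =>
    intro p hp
    rw [List.mem_cons] at hp
    rcases hp with rfl | hp
    · rw [flat_cons, List.isChain_cons_cons] at hc
      exact hc.1
    · exact ih hc.tail.tail p hp

lemma top_mem_TS (ps : List (BT × BT)) (hps : ∀ p ∈ ps, Adj p.1 p.2) :
    ((flat ps).map kk).sum ∈ TS ps := by
  induction ps with
  | nil => simp [flat, TS]
  | cons p ps ih =>
    rw [TS_cons, Set.mem_add]
    refine ⟨_, (good_BL (hps p (by simp))).top, _, ih (fun q hq => hps q (by simp [hq])), ?_⟩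
    simp only [flat_cons, List.map_cons, List.sum_cons]
    omega

lemma length_flat (ps : List (BT × BT)) : (flat ps).length = 2 * ps.length := by
  induction ps with
  | nil => rfl
  | cons p ps ih => simp only [flat_cons, List.length_cons, ih]; omega

lemma mem_flat {ps : List (BT × BT)} {t : BT} (h : t ∈ flat ps) :
    ∃ p ∈ ps, t = p.1 ∨ t = p.2 := by
  simp only [flat, List.mem_flatMap, List.mem_cons, List.not_mem_nil, or_false] at h
  exact h

lemma TS_append (ps qs : List (BT × BT)) : TS (ps ++ qs) = TS ps + TS qs := by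
  simp [TS]

lemma flat_append (ps qs : List (BT × BT)) : flat (ps ++ qs) = flat ps ++ flat qs := by
  simp [flat]

/-- The interval of the total lengths. -/
lemma interval_mem {c d : BT} {ps : List (BT × BT)} {n : ℕ} (hc : kk c = 3) (hd : kk d = 3)
    (hps : ∀ p ∈ (c, d) :: ps, Adj p.1 p.2) {p : BT × BT} (hp : p ∈ ps) (hk : kk p.1 ≠ kk p.2)
    (h1 : kk p.1 ≤ n + 1) (h2 : kk p.2 ≤ n + 1) {L : ℕ}
    (hL1 : (flat ((c, d) :: ps)).length + 2 * n ≤ L)
    (hL2 : L + 2 * n ≤ ((flat ((c, d) :: ps)).map kk).sum) : L ∈ TS ((c, d) :: ps) := by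
  obtain ⟨ps1, ps2, rfl⟩ := List.append_of_mem hp
  have hcd : Adj c d := hps (c, d) (by simp)
  have hpa : Adj p.1 p.2 := hps p (by simp)
  obtain ⟨h3, h4, h5⟩ := BL_three hcd hc hd
  obtain ⟨b, hb1, hb2, hb3⟩ := BL_odd hpa hk
  have hS : ∀ n, b + 4 ≤ n → n ≤ b + 7 → n ∈ BL c d + BL p.1 p.2 := by
    intro n hn1 hn2
    rw [Set.mem_add]
    have : n = b + 4 ∨ n = b + 5 ∨ n = b + 6 ∨ n = b + 7 := by omega
    rcases this with rfl | rfl | rfl | rfl
    · exact ⟨4, h4, b, hb1, by omega⟩
    · exact ⟨2, h3, b + 3, hb2, by omega⟩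
    · exact ⟨6, h5, b, hb1, by omega⟩
    · exact ⟨4, h4, b + 3, hb2, by omega⟩
  have hrest : ∀ q ∈ ps1 ++ ps2, Adj q.1 q.2 := by
    intro q hq
    apply hps q
    simp only [List.mem_append, List.mem_cons] at hq ⊢
    tauto
  have key := TS_interval (ps1 ++ ps2) hrest hS (by omega) L
  have e : TS ((c, d) :: (ps1 ++ p :: ps2)) = TS (ps1 ++ ps2) + (BL c d + BL p.1 p.2) := by
    rw [TS_cons, TS_append, TS_cons, TS_append]
    abel
  rw [e]
  apply key
  · simp only [length_flat, List.length_cons, List.length_append] at hL1 ⊢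
    omega
  · simp only [flat_cons, flat_append, List.map_cons, List.map_append, List.sum_cons,
      List.sum_append] at hL2 ⊢
    omega

end Pool.Agent.R651.Asc
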